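import Pool.Agent.Helper39.Uct.Goals4

/-!
# LIM, GD2: a common point of an infinite nested sequence of data
-/

open scoped ComplexOrder

namespace Pool.Agent.Helper69.Uct3

open Pool.Agent.Helper39.Uct Pool.Agent.Helper39.Uct.Fib Filter Topology

section limit

variable {Q : Type} [Group Q] {B : Type} [NonUnitalCStarAlgebra B] {G : Fib Q B}

/-- limits of bounded sequences along an ultrafilter -/
theorem lim_exists (ψ : ℕ → G.Pt) (U : Ultrafilter ℕ) (b : B) :
    ∃ z : ℂ, Tendsto (fun m => ψ m b) U (𝓝 z) := by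
  have hc : IsCompact (Metric.closedBall (0 : ℂ) ‖b‖) := isCompact_closedBall _ _
  have hle : ((U.map (fun m => ψ m b) : Ultrafilter ℂ) : Filter ℂ) ≤
      𝓟 (Metric.closedBall (0 : ℂ) ‖b‖) := by
    rw [le_principal_iff, Ultrafilter.mem_coe, Ultrafilter.mem_map]
    have : (fun m => ψ m b) ⁻¹' Metric.closedBall (0 : ℂ) ‖b‖ = Set.univ := by
      ext m
      simp only [Set.mem_preimage, Metric.mem_closedBall, dist_zero_right, Set.mem_univ, iff_true]
      exact (ψ m).bound b
    rw [this]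
    exact Filter.univ_mem
  obtain ⟨z, _, hz⟩ := hc.ultrafilter_le_nhds _ hle
  exact ⟨z, hz⟩

/-- The limit of points along an ultrafilter is a point if some element has value one. -/
theorem lim_pt (ψ : ℕ → G.Pt) (U : Ultrafilter ℕ) (h₀ : B)
    (h : ∀ᶠ m in (U : Filter ℕ), ψ m h₀ = 1) :
    ∃ Φ : G.Pt, ∀ b, Tendsto (fun m => ψ m b) U (𝓝 (Φ b)) := by
  choose L hL using fun b => lim_exists ψ U b
  have uniq : ∀ {b : B} {z : ℂ}, Tendsto (fun m => ψ m b) U (𝓝 z) → L b = z :=
    fun {b z} hz => tendsto_nhds_unique (hL b) hz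
  let Λ : B →ₗ[ℂ] ℂ :=
    { toFun := L
      map_add' := fun x y => by
        apply uniq
        have h1 := (hL x).add (hL y)
        refine h1.congr fun m => ?_
        exact (map_add (ψ m).toFun x y).symm
      map_smul' := fun c x => by
        apply uniq
        have h1 := (hL x).const_mul c
        refine h1.congr fun m => ?_
        exact (map_smul (ψ m).toFun c x).symm }
  have hbound : ∀ b, ‖L b‖ ≤ ‖b‖ := fun b =>
    le_of_tendsto (hL b).norm (Eventually.of_forall fun m => (ψ m).bound b)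
  have hcont : Continuous L := by
    have : Continuous (LinearMap.mkContinuous Λ 1 (by
      intro b
      rw [one_mul]
      exact hbound b)) := ContinuousLinearMap.continuous _
    exact this
  have hmulL : ∀ c ∈ G.fib 1, ∀ b, L (c * b) = L c * L b := by
    intro c hc b
    apply uniq
    refine ((hL c).mul (hL b)).congr fun m => ?_
    exact (pt_mulL (ψ m) hc b).symm
  refine ⟨⟨Λ, hbound, ?_, ?_, ?_⟩, hL⟩
  · intro b
    exact ge_of_tendsto (hL (star b * b)) (Eventually.of_forall fun m => (ψ m).pos b)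
  · intro c hc c' _
    exact hmulL c hc c'
  · by_contra hno
    push Not at hno
    have hz : ∀ c ∈ G.fib 1, L c = 0 := hno
    have hcl : IsClosed {b : B | L b = 0} := isClosed_eq hcont continuous_const
    have hsub : (Submodule.span ℂ {x : B | ∃ c ∈ G.fib 1, ∃ b, x = c * b} : Set B) ⊆
        {b : B | L b = 0} := by
      intro x hx
      refine Submodule.span_induction (p := fun x _ => Λ x = 0) ?_ ?_ ?_ ?_ hx
      · rintro x ⟨c, hc, b, rfl⟩
        have h1 := hmulL c hc b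
        rw [hz c hc, zero_mul] at h1
        exact h1
      · exact map_zero Λ
      · intro x y _ _ h1 h2
        rw [map_add, h1, h2, add_zero]
      · intro a x _ h
        rw [map_smul, h, smul_zero]
    have h1 : L h₀ = 0 := closure_minimal hsub hcl (mem_closure_unit_mul G h₀)
    have h2 : L h₀ = 1 := by
      apply uniq
      exact (tendsto_const_nhds (x := (1 : ℂ))).congr' (h.mono fun m hm => hm.symm)
    rw [h1] at h2
    exact zero_ne_one h2

end limit

/-- Packet LIM. -/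
theorem lim (hCRN : S_CRN) (hNST : S_NST) : S_LIM := by
  intro Q _ B _ G hG e h M K hD hK hh hh1 hhe hcomm
  -- nonempty sets of points
  have hne : ∀ n, ∃ ψ : G.Pt, ψ ∈ DPt G (e n) (K n) := by
    intro n
    obtain ⟨Q', _, f, -, -, H, _, ι, -, hnt, -, G', hG', -, h1, -, -, -⟩ :=
      hCRN Q B G hG (e n) (M n) (K n) (hD n)
    obtain ⟨c, hc, hc0⟩ := Helper43.Uct.exists_unit_ne_zero G' hnt
    obtain ⟨φ', -⟩ := t_PE Q' H G' hG' c hc hc0
    obtain ⟨ψ, hψ, -⟩ := h1 φ'
    exact ⟨ψ, hψ⟩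
  choose ψ hψ using hne
  -- nested data
  have hstep : ∀ n, ∀ φ ∈ DPt G (e (n + 1)) (K (n + 1)), φ ∈ DPt G (e n) (K n) ∧ φ (h n) = 1 :=
    fun n => hNST Q B G hG (e n) (e (n + 1)) (h n) (M n) (K n) (M (n + 1)) (K (n + 1))
      (hD n).toDat0 (hD (n + 1)).toDat0 (hK n).le (hh n) (hh1 n) (hhe n) (hcomm n)
  have hdown : ∀ m, ∀ φ ∈ DPt G (e m) (K m), ∀ n ≤ m,
      φ ∈ DPt G (e n) (K n) ∧ (n < m → φ (h n) = 1) := by
    intro m
    induction m with
    | zero =>
      intro φ hφ n hn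
      obtain rfl : n = 0 := Nat.le_zero.mp hn
      exact ⟨hφ, fun h => absurd h (lt_irrefl _)⟩
    | succ m ih =>
      intro φ hφ n hn
      have h1 := hstep m φ hφ
      rcases Nat.lt_or_ge n (m + 1) with hlt | hge
      · have h2 := ih φ h1.1 n (Nat.lt_succ_iff.mp hlt)
        refine ⟨h2.1, fun _ => ?_⟩
        rcases Nat.lt_or_ge n m with h3 | h3
        · exact h2.2 h3
        · obtain rfl : n = m := le_antisymm (Nat.lt_succ_iff.mp hlt) h3
          exact h1.2
      · obtain rfl : n = m + 1 := le_antisymm hn hge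
        exact ⟨hφ, fun h => absurd h (lt_irrefl _)⟩
  -- the limit
  let U : Ultrafilter ℕ := hyperfilter ℕ
  have hU : ∀ n, ∀ᶠ m in (U : Filter ℕ), n < m := by
    intro n
    have h1 : ∀ᶠ m in (cofinite : Filter ℕ), n < m := by
      rw [Nat.cofinite_eq_atTop]
      exact eventually_gt_atTop n
    exact hyperfilter_le_cofinite h1
  obtain ⟨Φ, hΦ⟩ := lim_pt ψ U (h 0) ((hU 0).mono fun m hm => (hdown m _ (hψ m) 0 hm.le).2 hm)
  refine ⟨Φ, fun n k hk => ?_⟩
  refine (hD n).fix Φ ?_ k hk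
  refine ⟨?_, h n, hh n, ?_⟩
  · intro x hx y hy
    refine tendsto_nhds_unique (hΦ (x * y)) ?_
    refine ((hΦ x).mul (hΦ y)).congr' ?_
    filter_upwards [hU n] with m hm
    exact ((hdown m _ (hψ m) n hm.le).1.1 x hx y hy).symm
  · have h2 : Φ (h n) = 1 := by
      refine tendsto_nhds_unique (hΦ (h n)) ?_
      refine (tendsto_const_nhds (x := (1 : ℂ))).congr' ?_
      filter_upwards [hU n] with m hm
      exact ((hdown m _ (hψ m) n hm.le).2 hm).symm
    rw [h2]
    exact one_ne_zero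

/-- Packet GD2. -/
theorem gd2 (hSTP : S_STP) (hLIM : S_LIM) : S_GD2 := by
  intro Q _ B _ G hG hV hB
  by_contra hgood
  obtain ⟨c, hc, hc0⟩ := Helper43.Uct.exists_unit_ne_zero G hB
  have hd : star c * c ∈ G.fib 1 := smem G hc hc
  have hd0 : star c * c ≠ 0 := fun h0 => hc0 (CStarRing.star_mul_self_eq_zero_iff c |>.1 h0)
  have hdat : Dat G (star c * c) ⊤ ⊥ := by
    refine ⟨⟨bot_le, ?_, IsSelfAdjoint.star_mul_self c, hd0, ?_, ?_, ?_, ?_⟩, ?_⟩
    · intro q _ k hk
      rw [Subgroup.mem_bot] at hk ⊢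
      rw [hk, mul_one, mul_inv_cancel]
    · apply Submodule.le_topologicalClosure
      have := le_iSup (fun k : (⊥ : Subgroup Q) => G.fib (k : Q)) 1
      exact this hd
    · intro q hq
      exact absurd (Subgroup.mem_top q) hq
    · intro k hk k' hk' b hb b' hb'
      rw [Subgroup.mem_bot] at hk hk'
      subst hk hk'
      exact hG _ (unit_mul G (unit_mul G hd hb) hd) _ (unit_mul G (unit_mul G hd hb') hd)
    · intro c' hc'
      exact hG _ hc' _ hd
    · intro ψ _ k hk
      rw [Subgroup.mem_bot] at hk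
      rw [hk]
      exact (t_PF Q B G hG).st_one ψ
  -- the sequence
  let X : Type := {x : B × Subgroup Q × Subgroup Q // Dat G x.1 x.2.1 x.2.2}
  have hnext : ∀ x : X, ∃ y : X, ∃ h : B, x.1.2.2 < y.1.2.2 ∧ h ∈ CSp G x.1.1 x.1.2.2 ∧
      ‖h‖ ≤ 1 ∧ h * y.1.1 = y.1.1 ∧ ∀ z ∈ CSp G x.1.1 x.1.2.2, z * y.1.1 = y.1.1 * z := by
    intro x
    rcases hSTP Q B G hG hV x.1.1 x.1.2.1 x.1.2.2 x.2 with h | ⟨e', M', K', h, h1, h2⟩
    · exact absurd h hgood
    · exact ⟨⟨(e', M', K'), h1⟩, h, h2⟩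
  choose nx hx hlt hmem hnorm hmul hcom using hnext
  let s : ℕ → X := fun n => Nat.rec ⟨(star c * c, ⊤, ⊥), hdat⟩ (fun _ x => nx x) n
  have hs : ∀ n, s (n + 1) = nx (s n) := fun n => rfl
  obtain ⟨ψ, hψ⟩ := hLIM Q B G hG (fun n => (s n).1.1) (fun n => hx (s n))
    (fun n => (s n).1.2.1) (fun n => (s n).1.2.2) (fun n => (s n).2) (fun n => hlt (s n))
    (fun n => hmem (s n)) (fun n => hnorm (s n)) (fun n => hmul (s n)) (fun n => hcom (s n))
  obtain ⟨S, hS, hsub⟩ := hV ψ
  have hacc := Helper43.Uct.acc S hS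
  rw [wellFoundedGT_iff_monotone_chain_condition] at hacc
  have hlt' : ∀ n, (s n).1.2.2 < (s (n + 1)).1.2.2 := fun n => hlt (s n)
  have hmono : Monotone fun n => (s n).1.2.2.subgroupOf S := by
    refine monotone_nat_of_le_succ fun n => ?_
    intro x hx'
    rw [Subgroup.mem_subgroupOf] at hx' ⊢
    exact (hlt' n).le hx'
  obtain ⟨n, hn⟩ := hacc ⟨_, hmono⟩
  have h1 := hn (n + 1) (Nat.le_succ n)
  have h2 : (s n).1.2.2.subgroupOf S = (s (n + 1)).1.2.2.subgroupOf S := h1
  have h3 : (s (n + 1)).1.2.2 ≤ (s n).1.2.2 := by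
    intro x hx'
    have hxS : x ∈ S := hsub (hψ (n + 1) x hx')
    have h4 : (⟨x, hxS⟩ : S) ∈ (s (n + 1)).1.2.2.subgroupOf S := by
      rw [Subgroup.mem_subgroupOf]
      exact hx'
    rw [← h2, Subgroup.mem_subgroupOf] at h4
    exact h4
  exact absurd h3 (not_le_of_gt (hlt' n))

end Pool.Agent.Helper69.Uct3
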